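import Pool.Agent.MP_4f4d9f_gt.Cb.HMain
import Pool.Agent.MP_4f4d9f_gt.Cb.Med
import Pool.Agent.MP_4f4d9f_gt.Cb.AlAsm
import Pool.Agent.MP_4f4d9f_gt.Cb.AlAvg
import Pool.Agent.MP_4f4d9f_gt.Cb.AlBr
import Pool.Agent.MP_4f4d9f_gt.Cb.AlCube
import Pool.Agent.MP_4f4d9f_gt.Cb.AlCyl
import Pool.Agent.MP_4f4d9f_gt.Cb.AlDict
import Pool.Agent.MP_4f4d9f_gt.Cb.AlEx
import Pool.Agent.MP_4f4d9f_gt.Cb.AlHt
import Pool.Agent.MP_4f4d9f_gt.Cb.AlMat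
import Pool.Agent.MP_4f4d9f_gt.Cb.AlMir
import Pool.Agent.MP_4f4d9f_gt.Cb.AlOp
import Pool.Agent.MP_4f4d9f_gt.Cb.AlPos
import Pool.Agent.MP_4f4d9f_gt.Cb.AlRel
import Pool.Agent.MP_4f4d9f_gt.Cb.AlRes
import Pool.Agent.MP_4f4d9f_gt.Cb.AlRoot
import Pool.Agent.MP_4f4d9f_gt.Cb.AlTp
import Pool.Agent.MP_4f4d9f_gt.Cb.AlUn

/-! The doubling rule for actions on median graphs, from the analytic core. -/

namespace Pool.Agent.MP_4f4d9f_gt.Cb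

theorem tor_cube (hC : CoreStmt) : CubeRule := fun _ _ _ _ T hT adj SS fin _ fp h =>
  tor_cube_of hC med_stmt (root_stmt (pos_stmt cyl_stmt) cube_stmt)
    (un_stmt (ex_stmt rel_stmt) avg_stmt) avg_stmt resN_stmt
    (br_stmt dictN_stmt matN_stmt op_stmt) tp_stmt htO_stmt htM_stmt mir_stmt ext_stmt T hT adj SS
    fin fp h

end Pool.Agent.MP_4f4d9f_gt.Cb
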