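import Pool.Agent.MP_4f4d9f_gt.Db.Defs

namespace Pool.Agent.MP_4f4d9f_gt.Cb

/-- The interval between two vertices of a graph. -/
def Itv {V : Type} (T : SimpleGraph V) (a b : V) : Set V :=
  {x | T.dist a x + T.dist x b = T.dist a b}

/-- Median graphs (the one-skeleta of CAT(0) cube complexes). -/
def IsMedian {V : Type} (T : SimpleGraph V) : Prop :=
  T.Connected ∧ ∀ a b c, ∃! m, m ∈ Itv T a b ∧ m ∈ Itv T b c ∧ m ∈ Itv T a c

/-- The vertex set of a cube of a median graph: an interval of length `d` with `2 ^ d` points. -/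
def IsCube {V : Type} (T : SimpleGraph V) (S : Set V) : Prop :=
  ∃ a b, S = Itv T a b ∧ S.ncard = 2 ^ T.dist a b

/-- The relations of the reflection group at a vertex `v`: the relations of the stabiliser `G_v`,
`s_w ^ 2 = 1` for each neighbour `w` of `v`, `a s_w a⁻¹ = s_{a w}` for `a ∈ G_v`, and `s_w`, `s_w'`
commute if the edges to `w` and `w'` span a square. -/
def cubeRel (G : Type) [Group G] {V : Type} [MulAction G V] (T : SimpleGraph V) (v : V) :
    Set (FreeGroup (MulAction.stabilizer G v ⊕ T.neighborSet v)) :=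
  {r | (∃ a b, r = .of (.inl a) * .of (.inl b) * (.of (.inl (a * b)))⁻¹) ∨
    (∃ w, r = .of (.inr w) * .of (.inr w)) ∨
    (∃ a w w', a.1 • w.1 = w'.1 ∧
      r = .of (.inl a) * .of (.inr w) * (.of (.inl a))⁻¹ * (.of (.inr w'))⁻¹) ∨
    ∃ w w', (∃ x, x ≠ v ∧ T.Adj w.1 x ∧ T.Adj w'.1 x) ∧
      r = .of (.inr w) * .of (.inr w') * (.of (.inr w))⁻¹ * (.of (.inr w'))⁻¹}

/-- The reflection group at `v`: the semidirect product of the right-angled Coxeter group of the
link of `v` with the stabiliser of `v`. -/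
abbrev ReflC (G : Type) [Group G] {V : Type} [MulAction G V] (T : SimpleGraph V) (v : V) : Type :=
  PresentedGroup (cubeRel G T v)

end Pool.Agent.MP_4f4d9f_gt.Cb
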