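import Pool.Agent.MP_4f4d9f_gt.Cb.Defs

namespace Pool.Agent.MP_4f4d9f_gt.Cb

open Sg Db
open scoped Pointwise

/-- The open cone on the flag complex of the relation `c`. -/
def Cone {S : Type} (c : S → S → Prop) : Set (S → ℝ) :=
  {x | (∀ s, 0 ≤ x s) ∧ ∀ s t, s ≠ t → x s ≠ 0 → x t ≠ 0 → c s t}

/-- The edges from `v` to `w` and to `w'` span a square. -/
def Sq {V : Type} (T : SimpleGraph V) (v : V) (w w' : T.neighborSet v) : Prop :=
  ∃ x, x ≠ v ∧ T.Adj w.1 x ∧ T.Adj w'.1 x

/-- Groups with an `n`-dimensional hierarchy, with finiteness conditions for the degree `m`. -/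
inductive HierC (n m : ℕ) : (G : Type) → [Group G] → Prop
  /-- Deck groups of contractible `n`-manifolds that are residually (locally indicable and
  amenable). -/
  | leaf {G : Type} [Group G] {C : Set (EuclideanSpace ℝ (Fin n))} (hC : Convex ℝ C)
      (hC' : (interior C).Nonempty) {M X : Type} [TopologicalSpace M] [T2Space M]
      [ChartedSpace C M] [TopologicalSpace X] [ContractibleSpace X] [MulAction G X]
      [ContinuousConstSMul G X] {p : X → M} (hp : IsQuotientCoveringMap p G) (h₁ : ResLIA G)
      (h₂ : FinRes G m) : HierC n m G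
  /-- Overgroups of finite index. -/
  | index {G H : Type} [Group G] [Group H] (j : H →* G) (hj : Function.Injective j)
      (hf : j.range.FiniteIndex) (h : HierC n m H) : HierC n m G
  /-- Directed unions. -/
  | union {G : Type} [Group G] (K : Finset G → Subgroup G) (hK : ∀ S, ∀ g ∈ S, g ∈ K S)
      (h : ∀ S, HierC n m (K S)) : HierC n m G
  /-- Cocompact actions on CAT(0) cube complexes, when the reflection groups at all vertices have
  a hierarchy. -/
  | cube {G V : Type} [Group G] [MulAction G V] (T : SimpleGraph V) (hT : IsMedian T)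
      (adj : ∀ (g : G) v w, T.Adj v w → T.Adj (g • v) (g • w))
      (SS : Finset (Set V)) (fin : ∀ S, IsCube T S → ∃ g : G, g • S ∈ SS)
      (fp : ∀ S, IsCube T S → FP (MulAction.stabilizer G S) (m + 1))
      (h : ∀ v, HierC n m (ReflC G T v)) : HierC n m G
  /-- Proper cocompact actions on CAT(0) cube complexes that are `n`-manifolds. -/
  | mfd {G V : Type} [Group G] [MulAction G V] (T : SimpleGraph V) (hT : IsMedian T)
      (adj : ∀ (g : G) v w, T.Adj v w → T.Adj (g • v) (g • w))
      (SS : Finset (Set V)) (fin : ∀ S, IsCube T S → ∃ g : G, g • S ∈ SS)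
      (st : ∀ v : V, Finite (MulAction.stabilizer G v)) {C : Set (EuclideanSpace ℝ (Fin n))}
      (hC : Convex ℝ C) (hC' : (interior C).Nonempty) [∀ v, ChartedSpace C (Cone (Sq T v))] :
      HierC n m G

end Pool.Agent.MP_4f4d9f_gt.Cb
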