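import Pool.Agent.MP_4f4d9f_gt.Cb.Defs

/-! Right-angled Coxeter groups on an arbitrary generating set and their walls. -/

namespace Pool.Agent.MP_4f4d9f_gt.Cb

/-- The relations of a right-angled Coxeter group. -/
def raRel {S : Type} (c : S → S → Prop) : Set (FreeGroup S) :=
  {r | (∃ s, r = .of s * .of s) ∨
    ∃ s t, c s t ∧ r = .of s * .of t * (.of s)⁻¹ * (.of t)⁻¹}

/-- The right-angled Coxeter group of the relation `c`. -/
def RA {S : Type} (c : S → S → Prop) : Type := PresentedGroup (raRel c)

instance {S : Type} (c : S → S → Prop) : Group (RA c) :=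
  inferInstanceAs (Group (PresentedGroup (raRel c)))

/-- The generators. -/
def gen {S : Type} (c : S → S → Prop) (s : S) : RA c := PresentedGroup.of (rels := raRel c) s

variable {S S' : Type} {c : S → S → Prop} {c' : S' → S' → Prop}

theorem gen_sq (s : S) : gen c s * gen c s = 1 :=
  PresentedGroup.one_of_mem (rels := raRel c) (x := .of s * .of s) (.inl ⟨s, rfl⟩)

theorem gen_inv (s : S) : (gen c s)⁻¹ = gen c s := inv_eq_of_mul_eq_one_right (gen_sq s)

theorem gen_comm {s t : S} (h : c s t) : Commute (gen c s) (gen c t) := by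
  have := PresentedGroup.one_of_mem (rels := raRel c)
    (x := .of s * .of t * (.of s)⁻¹ * (.of t)⁻¹) (.inr ⟨s, t, h, rfl⟩)
  exact commutatorElement_eq_one_iff_commute.1 this

/-- The universal property. -/
def RA.lift {M : Type} [Group M] (f : S → M) (h1 : ∀ s, f s * f s = 1)
    (h2 : ∀ s t, c s t → Commute (f s) (f t)) : RA c →* M :=
  PresentedGroup.toGroup (rels := raRel c) (f := f) (by
    rintro r (⟨s, rfl⟩ | ⟨s, t, h, rfl⟩)
    · simpa using h1 s
    · simp [(h2 s t h).eq])

@[simp] theorem RA.lift_gen {M : Type} [Group M] (f : S → M) (h1 : ∀ s, f s * f s = 1)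
    (h2 : ∀ s t, c s t → Commute (f s) (f t)) (s : S) : RA.lift f h1 h2 (gen c s) = f s :=
  PresentedGroup.toGroup.of _

theorem RA.hom_ext {M : Type} [Group M] {f g : RA c →* M} (h : ∀ s, f (gen c s) = g (gen c s)) :
    f = g := PresentedGroup.ext h

theorem closure_gen : Subgroup.closure (Set.range (gen c)) = ⊤ :=
  PresentedGroup.closure_range_of (raRel c)

/-- Induction over the subgroup generated by some generators, multiplying on the right. -/
theorem par_induction {T : Set S} {P : RA c → Prop} (h1 : P 1)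
    (h2 : ∀ w ∈ Subgroup.closure (gen c '' T), ∀ s ∈ T, P w → P (w * gen c s)) {w : RA c}
    (hw : w ∈ Subgroup.closure (gen c '' T)) : P w := by
  induction hw using Subgroup.closure_induction_right with
  | one => exact h1
  | mul_right x hx y hy ih =>
    obtain ⟨s, hs, rfl⟩ := hy
    exact h2 x hx s hs ih
  | mul_inv_cancel x hx y hy ih =>
    obtain ⟨s, hs, rfl⟩ := hy
    rw [gen_inv]
    exact h2 x hx s hs ih

theorem RA.induction {P : RA c → Prop} (h1 : P 1) (h2 : ∀ w s, P w → P (w * gen c s))
    (w : RA c) : P w :=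
  par_induction (T := Set.univ) h1 (fun w _ s _ => h2 w s)
    (by rw [Set.image_univ, closure_gen]; trivial)

theorem RA.induction_left {P : RA c → Prop} (h1 : P 1) (h2 : ∀ w s, P w → P (gen c s * w))
    (w : RA c) : P w := by
  rw [← inv_inv w]
  refine RA.induction (P := fun w => P w⁻¹) (by rwa [inv_one]) (fun w s h => ?_) w⁻¹
  rw [mul_inv_rev, gen_inv]
  exact h2 _ s h

/-- The homomorphism induced by a map of generators. -/
def RA.map (e : S → S') (he : ∀ s t, c s t → c' (e s) (e t)) : RA c →* RA c' :=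
  RA.lift (fun s => gen c' (e s)) (fun _ => gen_sq _) fun s t h => gen_comm (he s t h)

@[simp] theorem RA.map_gen (e : S → S') (he : ∀ s t, c s t → c' (e s) (e t)) (s : S) :
    RA.map e he (gen c s) = gen c' (e s) := RA.lift_gen _ _ _ s

/-- The action by automorphisms of a group that permutes the generators. -/
def raAut {G : Type} [Group G] [MulAction G S] (h : ∀ (g : G) s t, c s t → c (g • s) (g • t)) :
    G →* MulAut (RA c) where
  toFun g := MonoidHom.toMulEquiv (RA.map (g • ·) (h g)) (RA.map (g⁻¹ • ·) (h g⁻¹))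
    (RA.hom_ext fun s => by simp) (RA.hom_ext fun s => by simp)
  map_one' := MulEquiv.toMonoidHom_injective (RA.hom_ext fun s => by simp)
  map_mul' g g' := MulEquiv.toMonoidHom_injective (RA.hom_ext fun s => by simp [mul_smul])

@[simp] theorem raAut_gen {G : Type} [Group G] [MulAction G S]
    (h : ∀ (g : G) s t, c s t → c (g • s) (g • t)) (g : G) (s : S) :
    raAut h g (gen c s) = gen c (g • s) := RA.map_gen _ (h g) s

/-! ### Parity -/

open Classical in
/-- The parity of the number of occurrences of each generator. -/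
noncomputable def par (c : S → S → Prop) : RA c →* Multiplicative (S → ZMod 2) :=
  RA.lift (fun s => Multiplicative.ofAdd (Pi.single s 1))
    (fun s => by
      rw [← ofAdd_add, ← Pi.single_add]
      exact congrArg Multiplicative.ofAdd (Pi.single_zero s))
    fun _ _ _ => Commute.all _ _

open Classical in
theorem par_gen (s : S) : par c (gen c s) = Multiplicative.ofAdd (Pi.single s 1) :=
  RA.lift_gen _ _ _ s

theorem conj_gen {u u' : RA c} {s t : S} (h : u * gen c s * u⁻¹ = u' * gen c t * u'⁻¹) : s = t := by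
  classical
  have h1 := congrArg (par c) h
  simp only [map_mul, map_inv, mul_inv_cancel_comm, par_gen] at h1
  by_contra hne
  have h2 := congrFun (Multiplicative.ofAdd.injective h1) s
  rw [Pi.single_eq_same, Pi.single_eq_of_ne hne] at h2
  exact one_ne_zero h2

theorem gen_injective : Function.Injective (gen c) := fun s t h =>
  conj_gen (c := c) (u := 1) (u' := 1) (by rw [h])

theorem conj_gen_ne_one (u : RA c) (s : S) : u * gen c s * u⁻¹ ≠ 1 := by
  classical
  intro h
  have h1 := congrArg (par c) h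
  simp only [map_mul, map_inv, mul_inv_cancel_comm, par_gen, map_one] at h1
  have h2 := congrFun (Multiplicative.ofAdd.injective h1) s
  rw [Pi.single_eq_same] at h2
  exact one_ne_zero h2

/-! ### Walls -/

/-- The action of a generator on oriented reflections. -/
def flipR (c : S → S → Prop) (s : S) : Equiv.Perm (RA c × Prop) :=
  Function.Involutive.toPerm (fun x => (gen c s * x.1 * gen c s, ¬ (x.2 ↔ x.1 = gen c s))) fun x => by
    have h1 : gen c s * (gen c s * x.1 * gen c s) * gen c s = x.1 := by
      rw [← mul_assoc, ← mul_assoc, gen_sq, one_mul, mul_assoc, gen_sq, mul_one]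
    have h2 : gen c s * x.1 * gen c s = gen c s ↔ x.1 = gen c s := by
      rw [mul_eq_right, mul_eq_one_iff_inv_eq, gen_inv, eq_comm]
    refine Prod.ext h1 (propext ?_)
    change ¬ (¬ (x.2 ↔ x.1 = gen c s) ↔ gen c s * x.1 * gen c s = gen c s) ↔ x.2
    rw [h2]
    tauto

theorem flipR_apply (s : S) (r : RA c) (p : Prop) :
    flipR c s (r, p) = (gen c s * r * gen c s, ¬ (p ↔ r = gen c s)) := rfl

/-- The action on oriented reflections. -/
def actR (c : S → S → Prop) : RA c →* Equiv.Perm (RA c × Prop) :=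
  RA.lift (flipR c) (fun s => Equiv.ext fun x => (flipR c s).left_inv x) fun s t h => by
    have key : ∀ {a b : S}, Commute (gen c a) (gen c b) → ∀ r : RA c,
        (gen c b * r * gen c b = gen c a ↔ r = gen c a) := fun {a b} hab r => by
      constructor
      · intro e
        have : r = gen c b * gen c a * gen c b := by
          rw [← e, ← mul_assoc, ← mul_assoc, gen_sq, one_mul, mul_assoc, gen_sq, mul_one]
        rw [this, ← hab.eq, mul_assoc, gen_sq, mul_one]
      · rintro rfl
        rw [← hab.eq, mul_assoc, gen_sq, mul_one]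
    have hc := gen_comm h
    refine Equiv.ext fun ⟨r, p⟩ => ?_
    simp only [Equiv.Perm.mul_apply, flipR_apply, key hc, key hc.symm]
    refine Prod.ext ?_ (propext (by tauto))
    change gen c s * (gen c t * r * gen c t) * gen c s = gen c t * (gen c s * r * gen c s) * gen c t
    calc _ = gen c s * gen c t * r * (gen c t * gen c s) := by simp only [mul_assoc]
      _ = gen c t * gen c s * r * (gen c s * gen c t) := by rw [hc.eq]
      _ = _ := by simp only [mul_assoc]

/-- The wall of `r` separates `1` from `w`. -/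
def Nn (w r : RA c) : Prop := (actR c w⁻¹ (r, False)).2

theorem actR_apply (w r : RA c) (p : Prop) :
    actR c w⁻¹ (r, p) = (w⁻¹ * r * w, ¬ (p ↔ Nn w r)) := by
  induction w using RA.induction generalizing p with
  | h1 => simp [Nn]
  | h2 w s ih =>
    have e : ∀ p, actR c (w * gen c s)⁻¹ (r, p) =
        (gen c s * (w⁻¹ * r * w) * gen c s, ¬ (¬ (p ↔ Nn w r) ↔ w⁻¹ * r * w = gen c s)) := fun p => by
      rw [mul_inv_rev, gen_inv, map_mul, Equiv.Perm.mul_apply, ih, actR, RA.lift_gen, flipR_apply]
    rw [Nn, e, e]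
    refine Prod.ext ?_ (propext (by tauto))
    simp only [mul_inv_rev, gen_inv, mul_assoc]

theorem nn_one (r : RA c) : ¬ Nn 1 r := by simp [Nn]

theorem nn_mul (w w' r : RA c) : Nn (w * w') r ↔ ¬ (Nn w r ↔ Nn w' (w⁻¹ * r * w)) := by
  rw [Nn, mul_inv_rev, map_mul, Equiv.Perm.mul_apply, actR_apply, actR_apply]
  tauto

theorem nn_gen (s : S) (r : RA c) : Nn (gen c s) r ↔ r = gen c s := by
  rw [Nn, gen_inv, actR, RA.lift_gen, flipR_apply]
  tauto

theorem nn_mul_gen (w : RA c) (s : S) (r : RA c) :
    Nn (w * gen c s) r ↔ ¬ (Nn w r ↔ r = w * gen c s * w⁻¹) := by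
  rw [nn_mul, nn_gen]
  have : w⁻¹ * r * w = gen c s ↔ r = w * gen c s * w⁻¹ :=
    ⟨fun e => by rw [← e]; group, fun e => by rw [e]; group⟩
  rw [this]

theorem nn_gen_mul (w : RA c) (s : S) (r : RA c) :
    Nn (gen c s * w) r ↔ ¬ (r = gen c s ↔ Nn w (gen c s * r * gen c s)) := by
  rw [nn_mul, nn_gen, gen_inv]

theorem nn_inv (w r : RA c) : Nn w⁻¹ r ↔ Nn w (w * r * w⁻¹) := by
  have := nn_mul w⁻¹ w r
  rw [inv_mul_cancel, inv_inv] at this
  have h2 := nn_one r
  tauto

theorem nn_finite (w : RA c) : {r | Nn w r}.Finite := by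
  induction w using RA.induction with
  | h1 => simp [nn_one]
  | h2 w s ih =>
    refine (ih.insert (w * gen c s * w⁻¹)).subset fun r hr => ?_
    rw [Set.mem_ofPred_eq, nn_mul_gen] at hr
    rw [Set.mem_insert_iff, Set.mem_ofPred_eq]
    tauto

theorem nn_par {T : Set S} {w : RA c} (hw : w ∈ Subgroup.closure (gen c '' T)) {r : RA c}
    (h : Nn w r) : ∃ u ∈ Subgroup.closure (gen c '' T), ∃ s ∈ T, r = u * gen c s * u⁻¹ := by
  revert h
  refine par_induction (P := fun w => Nn w r → _) (fun h => (nn_one r h).elim)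
    (fun w hw s hs ih h => ?_) hw
  rw [nn_mul_gen] at h
  by_cases h1 : Nn w r
  · exact ih h1
  · exact ⟨w, hw, s, hs, by tauto⟩

theorem nn_refl {w r : RA c} (h : Nn w r) : ∃ u s, r = u * gen c s * u⁻¹ := by
  obtain ⟨u, -, s, -, e⟩ := nn_par (T := Set.univ) (by rw [Set.image_univ, closure_gen]; trivial) h
  exact ⟨u, s, e⟩

theorem nn_map {φ : RA c →* RA c'} (hφ : Function.Injective φ) (h : ∀ s, ∃ s', φ (gen c s) = gen c' s')
    (w r : RA c) : Nn (φ w) (φ r) ↔ Nn w r := by
  induction w using RA.induction with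
  | h1 => simp [nn_one]
  | h2 w s ih =>
    obtain ⟨s', hs⟩ := h s
    rw [map_mul, hs, nn_mul_gen, nn_mul_gen, ih, ← hs, ← map_inv, ← map_mul, ← map_mul, hφ.eq_iff]

theorem nn_aut {G : Type} [Group G] [MulAction G S]
    (h : ∀ (g : G) s t, c s t → c (g • s) (g • t)) (g : G) (w r : RA c) :
    Nn (raAut h g w) (raAut h g r) ↔ Nn w r :=
  nn_map (φ := (raAut h g).toMonoidHom) (raAut h g).injective (fun s => ⟨_, raAut_gen h g s⟩) w r

end Pool.Agent.MP_4f4d9f_gt.Cb
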